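import Mathlib
import Pool.Agent.W2helper8.AF.Fin
import Pool.Agent.W2helper8.AF.All

/-!
# MP_a320f3_co: the vertex-edge inequality for acyclic flag complexes (Q1, full answer)

The flag complex of `G` is handled through its augmented simplicial chain complex over `k`: chains
on the cliques with `i` vertices (`IsChain`), the boundary `bd` (signs `sgn` from the order of the
vertices), `HZero k G i` (the reduced homology in degree `i - 1` vanishes) and `Acyclic k G` (all
`HZero k G i`); see `Pool.Agent.W2helper8.AF.HomStm`.

Idea of the proof. If `dim ≤ n` and `H̃_n = 0` then `G` has no clique with `n + 2` vertices and no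
subgraph `C * {a_1, b_1} * ... * {a_(n-1), b_(n-1)}` with `C` a cycle. Graphs with these two
forbidden configurations have at most `(v - 1) + t_n(v - 1)` edges, `t_n` the Turan number; this is
proved by deleting vertices, together with the description of the extremal graphs on `n q + 1`
vertices (a tree joined with `n - 1` independent sets of size `q`).
-/

namespace Pool.Agent.Results.MP_a320f3_co.VertexEdge

open Finset Pool.Agent.W2helper8.AF

universe u w

/-- Q1: for every field `k` and every finite simple graph `G` (on a linearly ordered vertex set `V`)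
whose flag complex is acyclic over `k` and has dimension `n`,
`n (v^2 - 2 e - 1) ≥ (v - 1)^2`. -/
theorem result (k : Type w) [Field k] (V : Type u) [Fintype V] [LinearOrder V]
    (G : SimpleGraph V) (n : ℕ) (hdim : ∃ σ, G.IsNClique (n + 1) σ)
    (hfree : G.CliqueFree (n + 2)) (hac : Acyclic k G) :
    (n : ℤ) * ((Fintype.card V : ℤ) ^ 2 - 2 * (G.edgeSet.ncard : ℤ) - 1)
      ≥ ((Fintype.card V : ℤ) - 1) ^ 2 := by
  obtain ⟨σ, hσ⟩ := hdim
  have hne : σ.Nonempty := by
    rw [← Finset.card_pos, hσ.card_eq]
    omega
  exact final.{u, w} hom' comb' k V G n ⟨hne.choose⟩ hfree (hac (n + 1))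

end Pool.Agent.Results.MP_a320f3_co.VertexEdge
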